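import Pool.Agent.L0h17.DN.Main

/-!
# Abundance for pairs which are dominated by an abundant pair: discriminants and norms

Let `V`, `X` be projective varieties over `ℂ` of dimension `n` with function fields `K ⊇ L`, and
`f : V ⇢ X` the generically finite dominant rational map given by the inclusion. Let `(X, Δ)` and `(V, D)`
be pairs, given by the multiplicities `δ P`, `δ' Q` along all prime divisors `P` over `X` and `Q` over
`V` (for a klt or log canonical pair with `K_X + Δ` `ℚ`-Cartier the number `1 - δ P` is the log discrepancy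
along `P`; `Δ = 0`, `D = 0` is the case of the canonical divisors of the smooth models). The condition
`PullLe` says `f^* (K_X + Δ) ≤ K_V + D`; it is always true for `Δ = 0`, `D = 0`.

Let `V ⇢ Z` be a dominant rational map, `E ⊆ K` the function field of `Z`. Let `W'` be the image of `V` in
`X × Z`, with function field `L E`, and let `d = [L E : L]` be the number of the different points of `Z`
below a general point of `X`. Let `A` be a linear system on `Z`, spanned by functions `a i`, which
separates these `d` points (`Separates`: `L E` is spanned by the `a i` over `L`). For example, if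
`L E = L(x 1, ..., x r)` with `x i` in `E` then the monomials of degree at most `d - 1` in the `x i` do.

**Theorem 1** (`Z = V`). Let `A` separate the points of the general fibre of `f`. If
`m (K_V + f^* Δ) - 2 m A` has sections with `h` algebraically independent ratios then so has
`m (deg f) (K_X + Δ)`. So `κ(K_X + Δ) ≥ κ(K_V + f^* Δ - 2 A)`.

**Theorem 2.** Let `ν(K_V + D) ≤ h` and let `Ω, g 1 Ω, ..., g h Ω` be sections of `m (K_V + D)`, where the
`g j` are algebraically independent functions on `Z` (so `κ(K_V + D) = ν(K_V + D) = h`). Suppose that along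
the prime divisors `Q` over `V` which do not dominate `Z` the forms `a i ^ (2 m) Ω`, `a i ^ (2 m) g j Ω` have
order at least `m (ε - 1) - m e δ P`, where `P`, `e` and `p`, `ε` are the divisors below `Q` and the
ramification indices on `X` and `Z`. Then either `ν(K_X + Δ) = -∞` or
`κ(K_X + Δ) = ν(K_X + Δ) = h`, and this Iitaka dimension is attained by the sections of
`m (deg f) (K_X + Δ)`.

So abundance holds for `(X, Δ)`: if `(X, Δ)` is klt and `K_X + Δ` is nef then it is semiample (Kawamata:
this follows from `κ = ν`). There is no assumption on the map `f`, which is not related to `V ⇢ Z` and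
not Galois. For example (in words, this is not part of the Lean statement), let `V = Y × B` with
`κ(B) = ν(B) = 0` and `Z = Y`, let `H` be generated by functions which generate `L E` over `L`, and let
`K_Y - 2 (d - 1) H` be big; then abundance holds for all varieties which are dominated by `Y × B` such that
there are at most `d` points of `Y` below a general point. The fibres of `V ⇢ Z` need not be isotrivial, and
`κ(K_V + D)` can be smaller than `dim Z`.

## Proof

*The discriminant.* Let `L ⊆ M` be finite of degree `d` with a basis `a 1, ..., a d`, and let `θ` be an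
`m`-canonical form on `M` such that all `a i ^ (2 m) θ` are regular. Then `disc (a) ^ m N(θ)` is a
regular `m d`-canonical form on `L`. In fact, locally at `P` let `a 0` have minimal order among the `a i`
at all `Q` over `P`, and let `c` have the order `1 - e(Q)` at all `Q`. The `u i = a i / a 0` are integral,
and `disc (u) N(c) = det (Tr (c u i u j))` is regular, since traces of elements with poles of order less
than the ramification index are regular. The value of `θ` on a frame at `P` is `g c ^ m / a 0 ^ (2 m)` with
`g` integral, so the value of the form is `(disc (u) N(c)) ^ m N(g)`. This is used for `M = L E`, and for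
the norm from `K` to `M` of the forms.

*Algebraic independence.* If `g 1, ..., g h` are algebraically independent then so are `h` suitable norms
`N(g i - y)`, `y` in `ℂ`, as the `g i` are algebraic over the field generated by all these norms.

*The divisors which dominate `Z`.* Let `Q` be such a divisor, with ramification index `e` over `P`, and
suppose that `Ω` has order less than `m (e - 1) - m e δ P` along `Q`. If `ν(K_X + Δ) ≥ 0` then there are
sections `σ` of `μ (K_X + Δ) + A'` for infinitely many `μ`. The products of `f^* σ ^ m` with powers of `Ω`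
and with polynomials in the `g j` are sections of multiples of `K_V + D` plus a fixed divisor. Their
orders along `Q`, up to the order of the powers of `Ω`, are not bounded, and the polynomials in the `g j`
have order zero along `Q`. So the products for different `σ` are independent, and
`ν(K_V + D) > h`, a contradiction.
-/

set_option autoImplicit false
set_option linter.overlappingInstances false

open FF Pool.Agent.W602.GT Pool.Agent.W619.TW

namespace Pool.Agent.Results.MP_e23cd6_ag.ImagesOfBoundedDegree

/-- The prime divisor (divisorial place) `Q` lies over `P`, with ramification index `e`. -/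
def LiesOver {F K : Type} [Field F] [Field K] [Algebra ℂ F] [Algebra ℂ K] [Algebra F K]
    (Q : Place ℂ K) (P : Place ℂ F) (e : ℕ) : Prop :=
  0 < e ∧ ∀ u : F, Q.ord (algebraMap F K u) = e * P.ord u

/-- The form `ω` has order at least `c` along `Q`: its values on the vector fields which are regular
along `Q` are zero or have order at least `c`. -/
def OrdGe {K : Type} [Field K] [Algebra ℂ K] {n : ℕ} (Q : Place ℂ K) (c : ℚ)
    (ω : (Fin n → Derivation ℂ K K) → K) : Prop :=
  ∀ D : Fin n → Derivation ℂ K K, (∀ i, DerReg Q (D i)) → ω D = 0 ∨ c ≤ Q.ord (ω D)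

/-- `f^* (K_X + Δ) ≤ K_V + D` for the map `f : V ⇢ X` given by the extension `L ⊆ K` of the function
fields: for all prime divisors `Q` over `V`, and their images `P` with ramification index `e`, the log
discrepancies satisfy `1 - δ' Q ≤ e (1 - δ P)`. -/
def PullLe {L K : Type} [Field L] [Field K] [Algebra ℂ L] [Algebra ℂ K] [Algebra L K] (n : ℕ)
    (δ : Place ℂ L → ℚ) (δ' : Place ℂ K → ℚ) : Prop :=
  ∀ (Q : Place ℂ K) (P : Place ℂ L) (e : ℕ), Divisorial n Q → LiesOver Q P e →
    1 - δ' Q ≤ e * (1 - δ P)

/-- The functions `a i` on `Z` separate the points of `Z` below a general point of `X`: they span the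
function field `L E` of the image of `V` in `X × Z` over the function field `L` of `X`. -/
def Separates (L : Type) {K : Type} [Field L] [Field K] [Algebra ℂ K] [Algebra L K]
    (E : IntermediateField ℂ K) {ι : Type} (a : ι → E) : Prop :=
  (IntermediateField.adjoin L (E : Set K) : Set K) ⊆
    Submodule.span L (Set.range fun i => (a i : K))

/-- `ν (K_X + Δ) = -∞`: for every divisor `A` (generated by a finite set `S` of functions),
`μ (K_X + Δ) + A` has no nonzero section for large `μ`. -/
def NumNeg (L : Type) [Field L] [Algebra ℂ L] (n : ℕ) (δ : Place ℂ L → ℚ) : Prop :=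
  ∀ S : Finset L, ∃ μ₀ : ℕ, ∀ μ, μ₀ ≤ μ → ¬ HasIndep ℂ L n 1 (IsPairSec ℂ L n δ S μ 1)

/-- The sections of `M (K_X + Δ)` have `h` algebraically independent ratios. -/
def IitakaGe (L : Type) [Field L] [Algebra ℂ L] (n : ℕ) (δ : Place ℂ L → ℚ) (M h : ℕ) : Prop :=
  ∃ Φ : Fin (h + 1) → (Fin n → Derivation ℂ L L) → L,
    (∀ j, IsPluri M (Φ j) ∧ ∀ P : Place ℂ L, Divisorial n P → OrdGe P (-(M * δ P)) (Φ j)) ∧
    ∃ D, Φ 0 D ≠ 0 ∧ AlgebraicIndependent ℂ fun j : Fin h => Φ j.succ D / Φ 0 D

/-- `V` and `X` are projective varieties of dimension `n` with function fields `K ⊇ L`, and `f : V ⇢ X` is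
the generically finite rational map given by the inclusion; `δ P`, `δ' Q` are the multiplicities of the
boundaries `Δ` and `D` along all prime divisors over `X` and `V`; `Ω ≠ 0` is a rational `m`-canonical form
on `V`, `m ≥ 1`, `E ⊆ K` is the function field of a variety `Z` (a dominant rational map `V ⇢ Z`), and
`g 1, ..., g h` in `E` are algebraically independent.

(1) If the `a i` in `K` separate the points of the general fibre of `f`, and the forms
`a i ^ (2 m) u Ω`, for `u` in `{1, g 1, ..., g h}`, have order at least `- m e δ P` along all `Q`, where `P` is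
the divisor below `Q` and `e` the ramification index (they are sections of `m (K_V + f^* Δ)`), then the
sections of `m (deg f) (K_X + Δ)` have `h` algebraically independent ratios, and `κ(K_X + Δ) ≥ h`.

(2) Let `f^* (K_X + Δ) ≤ K_V + D` and `ν(K_V + D) ≤ h`, and let the forms `u Ω`, `u` in
`{1, g 1, ..., g h}`, be sections of `m (K_V + D)`. Let the functions `a i` on `Z` separate the points of `Z`
below a general point of `X`, and for all prime divisors `Q` over `V` which do not dominate `Z`, with
`P`, `e` and `p`, `ε` the divisors below `Q` and the ramification indices over `X` and over `Z`, let the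
forms `a i ^ (2 m) u Ω` have order at least `m (ε - 1) - m e δ P` along `Q`. Then either
`ν(K_X + Δ) = -∞` or `κ(K_X + Δ) = ν(K_X + Δ) = h`, and in the latter case the sections of
`m (deg f) (K_X + Δ)` have `h` algebraically independent ratios. -/
theorem result {L K : Type} [Field L] [Field K] [Algebra ℂ L] [Algebra ℂ K] [Algebra L K]
    [IsScalarTower ℂ L K] [FiniteDimensional L K] [Algebra.EssFiniteType ℂ K] {n : ℕ}
    (hn : Algebra.trdeg ℂ L = n) (δ : Place ℂ L → ℚ) {m h : ℕ} (hm : 1 ≤ m)
    {Ω : (Fin n → Derivation ℂ K K) → K} (hΩ : IsPluri m Ω) (hΩ0 : ∃ D, Ω D ≠ 0)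
    (E : IntermediateField ℂ K) {g : Fin h → E} (hg : AlgebraicIndependent ℂ g) {ι : Type}
    [Fintype ι] :
    (∀ a : ι → K, (Submodule.span L (Set.range a) = ⊤) →
      (∀ (Q : Place ℂ K) (P : Place ℂ L) (e : ℕ), Divisorial n Q → LiesOver Q P e →
        ∀ (i : ι) (u : K), (u = 1 ∨ ∃ j, u = g j) →
          OrdGe Q (-(m * e * δ P)) (fun D => a i ^ (2 * m) * (u * Ω D))) →
      IitakaGe L n δ (m * Module.finrank L K) h ∧ PairKodGe ℂ L n δ h) ∧
    ∀ δ' : Place ℂ K → ℚ, PullLe n δ δ' → PairNumLe ℂ K n δ' h →
      (∀ Q : Place ℂ K, Divisorial n Q → ∀ u : K, (u = 1 ∨ ∃ j, u = g j) →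
        OrdGe Q (-(m * δ' Q)) (fun D => u * Ω D)) →
      ∀ a : ι → E, Separates L E a →
      (∀ (Q : Place ℂ K) (P : Place ℂ L) (e : ℕ) (p : Place ℂ E) (ε : ℕ), Divisorial n Q →
        LiesOver Q P e → LiesOver Q p ε → ∀ (i : ι) (u : K), (u = 1 ∨ ∃ j, u = g j) →
          OrdGe Q (m * ((ε : ℚ) - 1) - m * e * δ P) (fun D => (a i : K) ^ (2 * m) * (u * Ω D))) →
      NumNeg L n δ ∨ (IitakaGe L n δ (m * Module.finrank L K) h ∧ PairKodGe ℂ L n δ h ∧
        PairNumLe ℂ L n δ h) := by
  obtain ⟨D0, hD0⟩ := hΩ0
  have hessL : Algebra.EssFiniteType ℂ L := Pool.Agent.TH466.QG.ess_below (K := K)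
  have hpos : 1 ≤ m * Module.finrank L K := Nat.mul_pos hm Module.finrank_pos
  refine ⟨fun a ha hord => ?_, fun δ' hpull hnum hsec a ha hvert => ?_⟩
  · -- the case `Z = V`
    have htop : ∀ x : K, x ∈ (⊤ : IntermediateField ℂ K) := fun x => trivial
    let g' : Fin h → (⊤ : IntermediateField ℂ K) := fun j => ⟨(g j : K), htop _⟩
    have hg' : AlgebraicIndependent ℂ g' := by
      refine AlgebraicIndependent.of_comp (⊤ : IntermediateField ℂ K).val ?_
      exact hg.map' (f := E.val) E.val.injective
    obtain ⟨Φ, h1, h2, D, h3, h4⟩ := Pool.Agent.L0h17.DN.main_aux (k := ℂ) hn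
      (⊤ : IntermediateField ℂ K) (δ := δ) hΩ hD0 hg' (fun i => ⟨a i, htop _⟩)
      (by
        intro x _
        have h5 : (Set.range fun i => (((⟨a i, htop _⟩ : (⊤ : IntermediateField ℂ K))) : K)) =
          Set.range a := rfl
        rw [h5, ha]
        trivial)
      (fun Q _ hh P e _ => by
        obtain ⟨t, ht0, ht⟩ := Q.surj
        have h5 := hh ⟨t, htop t⟩ (fun h0 => ht0 (congrArg Subtype.val h0))
        change Q.ord t = 0 at h5
        omega)
      (fun Q hQ p ε hp P e hP i => by
        have hε : ε = 1 := by
          obtain ⟨t, ht0, ht⟩ := Q.surj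
          have h5 := hp.2 ⟨t, htop t⟩
          change Q.ord t = _ at h5
          rw [ht] at h5
          have h6 : (ε : ℤ) ∣ 1 := ⟨_, h5⟩
          exact Nat.dvd_one.1 (by exact_mod_cast h6)
        have h7 : (m : ℚ) * ((ε : ℚ) - 1) - m * e * δ P = -(m * e * δ P) := by
          rw [hε]
          push_cast
          ring
        rw [h7]
        refine ⟨?_, fun j => hord Q P e hQ hP i _ (Or.inr ⟨j, rfl⟩)⟩
        have h8 := hord Q P e hQ hP i 1 (Or.inl rfl)
        simp only [one_mul] at h8
        exact h8)
    exact ⟨⟨Φ, fun j => ⟨h1 j, fun P hP => h2 P hP j⟩, D, h3, h4⟩,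
      Pool.Agent.L0h17.DN.kodGe_of hn hpos h1 h2 h3 h4⟩
  · by_cases hneg : NumNeg L n δ
    · exact Or.inl hneg
    have hpull' : ∀ (Q : Place ℂ K) (P : Place ℂ L) (e : ℕ), Over Q P e → Divisorial n Q →
        1 - δ' Q ≤ e * (1 - δ P) := fun Q P e h1 h2 => hpull Q P e h2 h1
    obtain ⟨Φ, h1, h2, D, h3, h4⟩ := Pool.Agent.L0h17.DN.main (k := ℂ) hn E hpull' hm hnum hΩ hD0
      hg (fun Q hQ => ⟨by
          have h5 := hsec Q hQ 1 (Or.inl rfl)
          simp only [one_mul] at h5
          exact h5, fun j => hsec Q hQ _ (Or.inr ⟨j, rfl⟩)⟩) a ha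
      (fun Q hQ p ε hp P e hP i => ⟨by
          have h5 := hvert Q P e p ε hQ hP hp i 1 (Or.inl rfl)
          simp only [one_mul] at h5
          exact h5, fun j => hvert Q P e p ε hQ hP hp i _ (Or.inr ⟨j, rfl⟩)⟩) hneg
    exact Or.inr ⟨⟨Φ, fun j => ⟨h1 j, fun P hP => h2 P hP j⟩, D, h3, h4⟩,
      Pool.Agent.L0h17.DN.kodGe_of hn hpos h1 h2 h3 h4,
      Pool.Agent.L0h17.DN.num_down hn hpull' hnum⟩

end Pool.Agent.Results.MP_e23cd6_ag.ImagesOfBoundedDegree
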