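import Pool.Agent.L0h17.TR.Fib
import Pool.Agent.L0h17.TR.Eqv

/-!
# Multivalued fibrations over varieties of general type: subvarieties of `W`, descent of the fibration,
and abundance

Let `W` be a projective variety over `ℂ` with a *multivalued* fibration: there are a variety `V` with a
dominant generically finite rational map `V ⇢ W` and a dominant rational map `V ⇢ Y` with fibres `S_y`,
such that `V` is birational to its image in `W × Y`. So `W` is covered by the family of the (images of
the) `S_y`, `y` in `Y`, and `d` of them pass through a general point of `W`. For `d = 1` it is a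
fibration `W ⇢ Y`. Let `A` be a linear system on `Y`, spanned by functions `c i`, which separates the
`d` points of `Y` below a general point of `W`, and let `K_Y - 2 A` be big, in the form `BigTwist`. For
example, `Y` may be a complete intersection with `K_Y = O(m)` with a bound for `d` which is quadratic in
`m` (`MP_e23cd6_ag.ProductTransfer`). Nothing is assumed about the `S_y` in (1), (2) and (4): they may vary
in moduli, and may be of any type and dimension. In terms of fields: `L`, `E`, `L E` are the function
fields of `W`, `Y`, `V`, in an algebraically closed field `Ω`.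

**(1) Subvarieties of `W`.** Let `D_r`, `r` in `R`, be a family of varieties of dimension `e` with a
dominant map of the total space to `W`, and let `D_r` be general. Let `j` be the dimension of the image of
`D_r ×_W V` in `Y`. If `j = e` (`D_r` is transversal to the `S_y`), or if `D_r` has `e` regular
differential forms of degree one which are linearly independent over the function field (for example, if
`D_r` has maximal Albanese dimension), then `κ(D_r) ≥ j`. In particular, the general members of all
covering families of transversal subvarieties are of general type.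

**(2) Contraction.** If the `D_r` are unirational, or dominated by varieties which have maximal Albanese
dimension and Kodaira dimension at most zero (for example abelian varieties), then `j = 0`: the image of
the general `D_r` in `W` is contained in `S_y` for all the `d` points `y` over its general point. So the
rational curves, the images of abelian varieties, the Kummer surfaces, ... through a general point of `W`
lie in the `S_y`.

**(3) Descent of the fibration.** If the general fibres of a fibration `W ⇢ Z` are as in (2) then the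
multivalued map `W ⇢ Y` factors through `Z`, and `Z ⇢ Y` has the same properties. If the `S_y` themselves
are as in (2) then they do not intersect outside a proper closed subset unless they are equal: there is a
fibration `W ⇢ Z` with fibres `S_y` and `dim Z = dim Y`, and `Z` is of general type.

**(4) Pairs.** Let `f : V ⇢ X` be any generically finite dominant map, `A` a linear system on `V` which
separates the points of the general fibre, and `(V, D)`, `(X, Δ)` pairs with
`f^* (K_X + Δ) ≤ K_V + D`, `D ≤ f^* Δ`, such that `K_V + D - (2 + 1 / M) A` is effective (up to a multiple).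
Then `κ(K_X + Δ) = κ(K_V + D)` and `ν(K_X + Δ) = ν(K_V + D)`, so abundance holds for `(X, Δ)` if and only
if it holds for `(V, D)`.

## Abundance

(This section is not part of the Lean theorem.) A klt pair `(X, Δ)` with `K_X + Δ` nef has
`K_X + Δ` semiample if and only if `κ = ν` (Kawamata). Let `X` be birational to `W` as above. The
divisor `K_V + D` of a resolution `V` of the normalization of `X` in the function field of `V`, where
`D ≥ 0` is the klt boundary with `K_V + D ≥ f^* (K_X + Δ)`, restricts to a pseudo-effective divisor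
`K_(S_y) + D_y` on `S_y`. If this divisor has nonnegative Kodaira dimension then `K_V + D` is at least
`(2 + 1 / M) A` by the weak positivity theorem of Viehweg and Campana, since `K_Y - 2 A` is big. Then by (4)
abundance for `(X, Δ)` is equivalent to abundance for `(V, D)`, a klt pair which is fibred over the variety of
general type `Y`, and this is known if abundance is known for the pairs `(S_y, D_y)`: for
`dim S_y ≤ 3` (so for all klt pairs `(X, Δ)` as above if `dim W ≤ dim Y + 3`), for `S_y` of general type, ....
If the `S_y` are as in (2) (rational, unirational, elliptic, abelian, Kummer, ...) then by (3) the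
variety `X` itself is fibred over the variety of general type `Z` with the fibres `S_y`.

## Proof

Let `Λ` be the algebraic closure of the function field of `R` and `r_1, ..., r_c` parameters. Let `η` be a
`p`-canonical form on `Y`, `y'_1, ..., y'_j` functions on `Y` which are algebraically independent over
`Λ`, completed by `y''` to a transcendence basis, and write `d y'' = T d y' + X d r`. For a square
submatrix `X_s` of `X` with `det X_s ≠ 0` the form
`(d y'_1 ∧ ... ∧ d y'_j) ^ p (det X_s) ^ p η(∂/∂y', ∂/∂y'')` on the variety over `Λ` with the function field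
`Λ L E` is the value of `η` on vector fields over `Λ` and on derivations which move the parameters. Since a
prime divisor over `Λ` is defined over a finitely generated field, these derivations can be chosen such
that they are regular on the functions of `Y`. So the form is regular, and its product with the
`p`-th powers of `e - j` regular differential forms of degree one is a regular `p`-canonical form. Here
one uses that a determinant of two groups of differential forms along a prime divisor is, up to sign, a
product of the two determinants, for suitable regular vector fields. The twisted norms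
`disc (c) ^ p N(...)` of these forms are regular on `D_r` (`MP_e23cd6_ag.ImagesOfBoundedDegree`), and this
proves (1). For (2) in the unirational case one applies (1) to the rational curves on which all coordinates
but one are constant. In (3) one applies (2) to all conjugates of `E` over `L`; the conjugates of the
elements of `E` are algebraic over `E`, so that their minimal polynomials have coefficients in the
intersection of `L` with the algebraic closure of `E`. For (4) the sections of
`m (K_V + D)` are multiplied by the `2 m`-th power of the effective divisor, and become sections of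
`m (2 M + 1) (K_V + f^* Δ - 2 A)`.
-/

set_option autoImplicit false
set_option linter.overlappingInstances false

open FF Pool.Agent.W602.GT Pool.Agent.W619.TW

namespace Pool.Agent.Results.MP_e23cd6_ag.MultivaluedFibrations

/-- `κ ≥ h` for the varieties over `k` of dimension `n` with function field `L`: for some `m ≥ 1` there are
`h + 1` `m`-canonical forms, regular along all prime divisors, whose ratios are `h` algebraically
independent functions. -/
def KodairaGe (k L : Type) [Field k] [Field L] [Algebra k L] (n h : ℕ) : Prop :=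
  ∃ m : ℕ, 1 ≤ m ∧ ∃ Φ : Fin (h + 1) → (Fin n → Derivation k L L) → L,
    (∀ j, IsPluri m (Φ j) ∧ ∀ P : Place k L, Divisorial n P → RegAt P (Φ j)) ∧
    ∃ D, Φ 0 D ≠ 0 ∧ AlgebraicIndependent k fun j : Fin h => Φ j.succ D / Φ 0 D

/-- The varieties over `k` of dimension `n` with function field `L` have `n` regular differential forms
of degree one which are linearly independent over `L` (for example if the Albanese map is generically
finite onto its image). -/
def MaxAlbanese (k L : Type) [Field k] [Field L] [Algebra k L] (n : ℕ) : Prop :=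
  ∃ β : Fin n → Derivation k L L →ₗ[L] L, LinearIndependent L β ∧
    ∀ i, ∀ P : Place k L, Divisorial n P → ∀ D, DerReg P D → P.Reg (β i D)

/-- `K_Y - 2 A` is big, where the linear system `A` on `Y` (of dimension `a`, with function field `E`)
is spanned by the functions `c i`: for some `p ≥ 1` there are a `p`-canonical form `η ≠ 0` on `Y` and
algebraically independent functions `g 1, ..., g a` such that the forms `c i ^ (2 p) u η`, for `u` in
`{1, g 1, ..., g a}`, are regular along all prime divisors over `Y`. -/
def BigTwist {E : Type} [Field E] [Algebra ℂ E] (a : ℕ) {ι : Type} (c : ι → E) : Prop :=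
  ∃ p : ℕ, 1 ≤ p ∧ ∃ η : (Fin a → Derivation ℂ E E) → E, IsPluri p η ∧ (∃ D, η D ≠ 0) ∧
    ∃ g : Fin a → E, AlgebraicIndependent ℂ g ∧ ∀ P : Place ℂ E, Divisorial a P →
      ∀ (i : ι) (u : E), (u = 1 ∨ ∃ j, u = g j) → RegAt P (fun D => c i ^ (2 * p) * (u * η D))

section

variable {Ω : Type} [Field Ω] [Algebra ℂ Ω]

/-- The algebraic closure of `M` in `Ω`. -/
noncomputable def Bar (M : IntermediateField ℂ Ω) : IntermediateField ℂ Ω :=
  (algebraicClosure M Ω).restrictScalars ℂ

/-- The function field, over `Bar M`, of the geometric generic member (as well, of the general member)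
of the family `𝒟 → R`, where `M` and `F` are the function fields of `R` and `𝒟`. -/
noncomputable def Gen (M F : IntermediateField ℂ Ω) : IntermediateField (Bar M) Ω :=
  IntermediateField.adjoin (Bar M) (F : Set Ω)

/-- The multivalued fibration: `L` and `E` are the function fields of `W` and `Y`, and `L E` is finite over
`L`. So `L E` is the function field of `V`. The functions `c i` on `Y` separate the points of `Y` below a
general point of `W` (they span `L E` over `L`), `dim Y = a`, and `K_Y - 2 A` is big. -/
structure MultiFibration (L : IntermediateField ℂ Ω) {E : IntermediateField ℂ Ω} (a : ℕ) {ι : Type}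
    (c : ι → E) : Prop where
  fgL : Algebra.EssFiniteType ℂ L
  fgE : Algebra.EssFiniteType ℂ E
  dim : Algebra.trdeg ℂ E = a
  alg : ∀ x ∈ E, IsAlgebraic L x
  sep : (E : Set Ω) ⊆ Submodule.span L (Set.range fun i => (c i : Ω))
  big : BigTwist a c

/-- `W` (with function field `L`) is dominated by a family of special varieties with a parameter space
with function field `M`: either there is a family with a dominant map of the total space (with function
field `F`) to `W` whose general members have maximal Albanese dimension and Kodaira dimension at most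
zero, or the function field `L` is contained in a purely transcendental extension of `Bar M` (the members
are unirational). -/
def Special (L M : IntermediateField ℂ Ω) : Prop :=
  (∃ (F : IntermediateField ℂ Ω) (e : ℕ), L ≤ F ∧ Algebra.EssFiniteType ℂ F ∧
    Algebra.trdeg (Bar M) (Gen M F) = e ∧ MaxAlbanese (Bar M) (Gen M F) e ∧
    ¬ KodairaGe (Bar M) (Gen M F) e 1) ∨
  ∃ (n : ℕ) (t : Fin n → Ω), AlgebraicIndependent (Bar M) t ∧
    (L : Set Ω) ⊆ IntermediateField.adjoin (Bar M) (Set.range t)

end

/-- (1) Let `𝒟 → R` be a family with a dominant map `𝒟 ⇢ W`, where `M`, `F` are the function fields of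
`R`, `𝒟`. Let the general member `D_r` have dimension `e`, and let `j` be the dimension of the image of
`D_r ×_W V` in `Y`, whose function field is `Gen M E`. If `j = e` or if `D_r` has maximal Albanese
dimension then `κ(D_r) ≥ j`. -/
def Members : Prop :=
  ∀ (Ω : Type) [Field Ω] [IsAlgClosed Ω] [Algebra ℂ Ω] (L E : IntermediateField ℂ Ω) (a : ℕ)
    (ι : Type) [Finite ι] (c : ι → E), MultiFibration L a c →
    ∀ (M F : IntermediateField ℂ Ω) (r e j : ℕ), L ≤ F → Algebra.EssFiniteType ℂ F →
      Algebra.trdeg ℂ M = r → Algebra.trdeg (Bar M) (Gen M F) = e →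
      Algebra.trdeg (Bar M) (Gen M E) = j → (j = e ∨ MaxAlbanese (Bar M) (Gen M F) e) →
      KodairaGe (Bar M) (Gen M F) e j

/-- (2) Families of special varieties are contracted: if `W` is dominated by a family of special
varieties, parametrized by a variety with function field `M` of finite transcendence degree, then the
functions on `Y` are constant on its members, `E ≤ Bar M`. -/
def Contraction : Prop :=
  ∀ (Ω : Type) [Field Ω] [IsAlgClosed Ω] [Algebra ℂ Ω] (L E : IntermediateField ℂ Ω) (a : ℕ)
    (ι : Type) [Finite ι] (c : ι → E), MultiFibration L a c →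
    ∀ (M : IntermediateField ℂ Ω) (r : ℕ), Algebra.trdeg ℂ M = r → Special L M → E ≤ Bar M

/-- (3) (`Ω` is the algebraic closure of `L`.) Let `W ⇢ Z` be a fibration, `M` the function field of `Z`.
If its general fibres are special then the multivalued fibration `W ⇢ Y` factors through a multivalued
fibration `Z ⇢ Y` with the same linear system `A`; and if `dim Z = dim Y` then `Z` is of general type.
If the `S_y` are special (the family over `Y`, with `M = E`) then there is such a fibration with
`dim Z = dim Y` and with the fibres `S_y`: the generic points of `Z` and `Y` have the same algebraic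
closures, and `Z` is of general type. -/
def Descent : Prop :=
  ∀ (Ω : Type) [Field Ω] [IsAlgClosed Ω] [Algebra ℂ Ω] (L E : IntermediateField ℂ Ω)
    [Algebra.IsAlgebraic L Ω] (a : ℕ) (ι : Type) [Finite ι] (c : ι → E), MultiFibration L a c →
    (∀ M ≤ L, (∀ x ∈ L, IsAlgebraic M x → x ∈ M) → Special L M → MultiFibration M a c ∧
      (Algebra.trdeg ℂ M = a → KodairaGe ℂ M a a)) ∧
    (Special L E → ∃ M ≤ L, (∀ x ∈ L, IsAlgebraic M x → x ∈ M) ∧ Bar M = Bar E ∧
      Algebra.trdeg ℂ M = a ∧ MultiFibration M a c ∧ KodairaGe ℂ M a a)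

/-- The prime divisor (divisorial place) `Q` lies over `P`, with ramification index `e`. -/
def LiesOver {F K : Type} [Field F] [Field K] [Algebra ℂ F] [Algebra ℂ K] [Algebra F K]
    (Q : Place ℂ K) (P : Place ℂ F) (e : ℕ) : Prop :=
  0 < e ∧ ∀ u : F, Q.ord (algebraMap F K u) = e * P.ord u

/-- The form `ω` has order at least `c` along `Q`: its values on the vector fields which are regular
along `Q` are zero or have order at least `c`. -/
def OrdGe {K : Type} [Field K] [Algebra ℂ K] {n : ℕ} (Q : Place ℂ K) (c : ℚ)
    (ω : (Fin n → Derivation ℂ K K) → K) : Prop :=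
  ∀ D : Fin n → Derivation ℂ K K, (∀ i, DerReg Q (D i)) → ω D = 0 ∨ c ≤ Q.ord (ω D)

/-- `κ(K_X + Δ) ≥ h`, where `Δ` is given by its multiplicities `δ P` along all prime divisors `P` over
`X`: for some `M ≥ 1` there are `h + 1` sections of `M (K_X + Δ)` whose ratios are `h` algebraically
independent functions. -/
def IitakaGe (L : Type) [Field L] [Algebra ℂ L] (n : ℕ) (δ : Place ℂ L → ℚ) (h : ℕ) : Prop :=
  ∃ M : ℕ, 1 ≤ M ∧ ∃ Φ : Fin (h + 1) → (Fin n → Derivation ℂ L L) → L,
    (∀ j, IsPluri M (Φ j) ∧ ∀ P : Place ℂ L, Divisorial n P → OrdGe P (-(M * δ P)) (Φ j)) ∧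
    ∃ D, Φ 0 D ≠ 0 ∧ AlgebraicIndependent ℂ fun j : Fin h => Φ j.succ D / Φ 0 D

/-- `K_V + D - (2 + 1 / M) A` is effective for some `M ≥ 1`, where `D` has the multiplicities `δ' Q` and the
linear system `A` is spanned by the functions `a i`: there is an `M`-canonical form `ω ≠ 0` such that the
forms `a i ^ (2 M + 1) ω` are sections of `M (K_V + D)`. -/
def EffectiveTwist {K : Type} [Field K] [Algebra ℂ K] (n : ℕ) (δ' : Place ℂ K → ℚ) {ι : Type}
    (a : ι → K) : Prop :=
  ∃ M : ℕ, 1 ≤ M ∧ ∃ ω : (Fin n → Derivation ℂ K K) → K, IsPluri M ω ∧ (∃ D, ω D ≠ 0) ∧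
    ∀ Q : Place ℂ K, Divisorial n Q → ∀ i,
      OrdGe Q (-(M * δ' Q)) (fun D => a i ^ (2 * M + 1) * ω D)

/-- (4) Let `f : V ⇢ X` be a generically finite dominant rational map of projective varieties of
dimension `n` with function fields `K ⊇ L`, and let `f^* (K_X + Δ₁) ≤ K_V + D ≤ K_V + f^* Δ₂`, where the
divisors are given by the multiplicities `δ₁`, `δ'`, `δ₂`. (If `K_X + Δ` is `ℚ`-Cartier one can take the
multiplicities `δ₁` of `Δ`, and `δ₂ = δ₁` along the prime divisors on `X` and any larger numbers along the
exceptional ones; then `δ₁` and `δ₂` define the same `κ` and `ν`.) Let the functions `a i` separate the points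
of the general fibre of `f`, and let `K_V + D - (2 + 1 / M) A` be effective. Then
`κ(K_X + Δ₁) ≤ κ(K_V + D) ≤ κ(K_X + Δ₂)` and `ν(K_X + Δ₁) ≤ ν(K_V + D) ≤ ν(K_X + Δ₂)`; and
abundance (`κ = ν`) for `(V, D)` gives `ν(K_X + Δ₁) ≤ κ(K_X + Δ₂)`, while `ν(K_X + Δ₂) ≤ κ(K_X + Δ₁)` gives
abundance for `(V, D)`. -/
def Pairs : Prop :=
  ∀ (L K : Type) [Field L] [Field K] [Algebra ℂ L] [Algebra ℂ K] [Algebra L K]
    [IsScalarTower ℂ L K] [FiniteDimensional L K] [Algebra.EssFiniteType ℂ K] (n : ℕ),
    Algebra.trdeg ℂ L = n → ∀ (δ₁ δ₂ : Place ℂ L → ℚ) (δ' : Place ℂ K → ℚ),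
    (∀ (Q : Place ℂ K) (P : Place ℂ L) (e : ℕ), Divisorial n Q → LiesOver Q P e →
      1 - δ' Q ≤ e * (1 - δ₁ P) ∧ δ' Q ≤ e * δ₂ P) →
    ∀ (ι : Type) [Finite ι] (a : ι → K), Submodule.span L (Set.range a) = ⊤ →
    EffectiveTwist n δ' a →
    (∀ h, (IitakaGe L n δ₁ h → IitakaGe K n δ' h) ∧ (IitakaGe K n δ' h → IitakaGe L n δ₂ h) ∧
      (PairNumLe ℂ K n δ' h → PairNumLe ℂ L n δ₁ h) ∧
      (PairNumLe ℂ L n δ₂ h → PairNumLe ℂ K n δ' h)) ∧
    ((∃ h, IitakaGe K n δ' h ∧ PairNumLe ℂ K n δ' h) →
      ∃ h, IitakaGe L n δ₂ h ∧ PairNumLe ℂ L n δ₁ h) ∧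
    ((∃ h, IitakaGe L n δ₁ h ∧ PairNumLe ℂ L n δ₂ h) →
      ∃ h, IitakaGe K n δ' h ∧ PairNumLe ℂ K n δ' h)

section

variable {Ω : Type} [Field Ω] [Algebra ℂ Ω] {L E : IntermediateField ℂ Ω} {a : ℕ} {ι : Type}
  {c : ι → E}

theorem dm_of (h : MultiFibration L a c) : Pool.Agent.L0h17.TR.Dm L E.val c a :=
  ⟨h.dim, fun x => h.alg x x.2, fun x => h.sep x.2, h.big⟩

theorem range_val (E : IntermediateField ℂ Ω) : Set.range E.val = (E : Set Ω) := by
  ext x
  exact ⟨fun ⟨y, hy⟩ => hy ▸ y.2, fun hx => ⟨⟨x, hx⟩, rfl⟩⟩

theorem le_gen {M F : IntermediateField ℂ Ω} (h : L ≤ F) : ∀ x ∈ L, x ∈ Gen M F := fun x hx =>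
  IntermediateField.subset_adjoin _ _ (h hx)

/-- contraction, for all conjugates -/
theorem contr [IsAlgClosed Ω] [Finite ι] {R : Type} [Field R] [Algebra ℂ R]
    [Algebra.EssFiniteType ℂ R] {φ : R →ₐ[ℂ] Ω} {c : ι → R}
    (hD : Pool.Agent.L0h17.TR.Dm L φ c a) {M : IntermediateField ℂ Ω} {r : ℕ}
    (hr : Algebra.trdeg ℂ M = r) (hs : Special L M) (x : R) : φ x ∈ Bar M := by
  have hr' : Algebra.trdeg ℂ (Bar M) = r := by
    rw [← hr]
    exact Pool.Agent.L0h17.TR.bar_trdeg M
  rcases hs with ⟨F, e, hLF, hF, he, h1, h2⟩ | ⟨n, t, ht, hLt⟩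
  · have hess : Algebra.EssFiniteType (Bar M) (Gen M F) :=
      Pool.Agent.L0h17.TR.gen_ess M F
    exact Pool.Agent.L0h17.TR.bar_bar
      (Pool.Agent.L0h17.TR.con_alb hD (Bar M) (Gen M F) hr' (le_gen hLF) he h1 h2 x)
  · exact Pool.Agent.L0h17.TR.bar_bar
      (Pool.Agent.L0h17.TR.con_rat hD (Bar M) hr' ht hLt x)

end

/-- (1) Lower bounds for the Kodaira dimension of the members of the covering families of `W`. (2) The
special families are contracted by the multivalued fibration. (3) Descent of the multivalued fibration.
(4) Comparison of `κ` and `ν` of the pairs `(V, D)` and `(X, Δ)`. -/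
theorem result : Members ∧ Contraction ∧ Descent ∧ Pairs := by
  refine ⟨?_, ?_, ?_, ?_⟩
  · intro Ω _ _ _ L E a ι _ c h M F r e j hLF hF hr he hj hcase
    have hess : Algebra.EssFiniteType (Bar M) (Gen M F) :=
      Pool.Agent.L0h17.TR.gen_ess M F
    have hessE := h.fgE
    have hr' : Algebra.trdeg ℂ (Bar M) = r := by
      rw [← hr]
      exact Pool.Agent.L0h17.TR.bar_trdeg M
    exact Pool.Agent.L0h17.TR.core3 (dm_of h) (Bar M) (Gen M F) hr' (le_gen hLF) he
      (by rw [range_val]; exact hj) hcase
  · intro Ω _ _ _ L E a ι _ c h M r hr hs x hx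
    have hessE := h.fgE
    exact contr (dm_of h) hr hs ⟨x, hx⟩
  · intro Ω _ _ _ L E _ a ι _ c h
    have hessE := h.fgE
    have hessL := h.fgL
    have key : ∀ M ≤ L, (∀ x ∈ L, IsAlgebraic M x → x ∈ M) → E ≤ Bar M →
        MultiFibration M a c ∧ (Algebra.trdeg ℂ M = a → KodairaGe ℂ M a a) := by
      intro M hML hM hEM
      have hessM : Algebra.EssFiniteType ℂ M := Pool.Agent.L0h17.TR.ess_le hML
      have hE : ∀ x : E, IsAlgebraic M (x : Ω) := fun x =>
        Pool.Agent.L0h17.TR.mem_bar.1 (hEM x.2)
      have hF : MultiFibration M a c :=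
        ⟨hessM, hessE, h.dim, fun x hx => hE ⟨x, hx⟩, fun x hx =>
          Pool.Agent.L0h17.TR.sep_base (L := L) (E := E) (x := ⟨x, hx⟩) hML
            (fun y hy => hM y hy.1 (Pool.Agent.L0h17.TR.mem_bar.1 hy.2)) hE (h.sep hx), h.big⟩
      exact ⟨hF, fun ha => Pool.Agent.L0h17.TR.gt_base (dm_of hF) ha⟩
    refine ⟨fun M hML hM hs => key M hML hM ?_, fun hs => ?_⟩
    · have hfin : Algebra.trdeg ℂ M < Cardinal.aleph0 :=
        lt_of_le_of_lt (Pool.Agent.L0h17.TR.trdeg_le hML) (trdeg_lt_aleph0 ℂ L)
      obtain ⟨r, hr⟩ := Cardinal.lt_aleph0.1 hfin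
      intro x hx
      exact contr (dm_of h) hr hs ⟨x, hx⟩
    · have hσ : ∀ (σ : Ω ≃ₐ[L] Ω) (x : E), σ x ∈ Bar E := fun σ x =>
        contr (Pool.Agent.L0h17.TR.dm_conj (dm_of h) σ) h.dim hs x
      have halg := Pool.Agent.L0h17.TR.fib_alg hσ (dm_of h)
      have hEM : E ≤ Bar (L ⊓ Bar E) := fun x hx =>
        Pool.Agent.L0h17.TR.mem_bar.2 (halg ⟨x, hx⟩)
      have hbar : Bar (L ⊓ Bar E) = Bar E := by
        apply le_antisymm
        · exact Pool.Agent.L0h17.TR.bar_mono inf_le_right
        · exact Pool.Agent.L0h17.TR.bar_mono hEM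
      have hM : ∀ x ∈ L, IsAlgebraic (L ⊓ Bar E : IntermediateField ℂ Ω) x →
          x ∈ L ⊓ Bar E := fun x hx hx2 => by
        refine ⟨hx, ?_⟩
        have h1 : x ∈ Bar (L ⊓ Bar E) := Pool.Agent.L0h17.TR.mem_bar.2 hx2
        rw [hbar] at h1
        exact h1
      have htr : Algebra.trdeg ℂ (L ⊓ Bar E : IntermediateField ℂ Ω) = a := by
        have h1 : Algebra.trdeg ℂ (Bar (L ⊓ Bar E)) =
            Algebra.trdeg ℂ (L ⊓ Bar E : IntermediateField ℂ Ω) :=
          Pool.Agent.L0h17.TR.bar_trdeg _
        have h2 : Algebra.trdeg ℂ (Bar E) = Algebra.trdeg ℂ E :=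
          Pool.Agent.L0h17.TR.bar_trdeg _
        rw [← h1, hbar, h2, h.dim]
      obtain ⟨h1, h2⟩ := key (L ⊓ Bar E) inf_le_left hM hEM
      exact ⟨L ⊓ Bar E, inf_le_left, hM, hbar, htr, h1, h2 htr⟩
  · intro L K _ _ _ _ _ _ _ _ n hn δ₁ δ₂ δ' hδ ι _ a ha heff
    obtain ⟨M, hM, ω, hω, hω0, hord⟩ := heff
    have hessL : Algebra.EssFiniteType ℂ L := Pool.Agent.TH466.QG.ess_below (K := K)
    have hmain : ∀ h, (IitakaGe L n δ₁ h → IitakaGe K n δ' h) ∧
        (IitakaGe K n δ' h → IitakaGe L n δ₂ h) ∧
        (PairNumLe ℂ K n δ' h → PairNumLe ℂ L n δ₁ h) ∧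
        (PairNumLe ℂ L n δ₂ h → PairNumLe ℂ K n δ' h) := by
      intro h
      refine ⟨?_, ?_, ?_, ?_⟩
      · rintro ⟨m, hm, H⟩
        exact ⟨m, hm, Pool.Agent.L0h17.TR.iit_up hn
          (fun Q P e h1 h2 => (hδ Q P e h1 h2).1) H⟩
      · rintro ⟨m, hm, H⟩
        refine ⟨(m + 2 * m * M) * Module.finrank L K,
          Nat.mul_pos (by omega) Module.finrank_pos, ?_⟩
        exact Pool.Agent.L0h17.TR.iit_down (fun Q P e h1 h2 => (hδ Q P e h1 h2).2) hω hω0
          hord hn ha H
      · intro H
        exact Pool.Agent.L0h17.DN.num_down hn (fun Q P e h1 h2 => (hδ Q P e h2 h1).1) H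
      · intro H
        exact Pool.Agent.L0h17.TR.num_up (fun Q P e h1 h2 => (hδ Q P e h1 h2).2) hω hω0
          hord hn ha H
    exact ⟨hmain, fun ⟨h, h1, h2⟩ => ⟨h, (hmain h).2.1 h1, (hmain h).2.2.1 h2⟩,
      fun ⟨h, h1, h2⟩ => ⟨h, (hmain h).1 h1, (hmain h).2.2.2 h2⟩⟩

end Pool.Agent.Results.MP_e23cd6_ag.MultivaluedFibrations
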