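import Pool.Agent.L0h17.KU.Fin
import Pool.Agent.L0h17.KU.Ci

/-!
# Abundance for varieties which are covered by a family of copies of a variety `S`

Let `W` be a projective variety over `ℂ` which is covered by a family of subvarieties `S_y`, `y` in `Y`,
birational to a fixed variety `S`, with `d` members through a general point. So there is a dominant
generically finite rational map `Y × S ⇢ W` of degree `d` which is birational to its image on the
general `{y} × S`. Nothing is assumed about `S`, which may be of any type and dimension (for example a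
variety for which abundance is not known), nor about the map; for `d > 1` the variety `W` is not a
product, and it need not be a quotient of one.

**Theorem (transfer).** Let `A` be a linear system on `Y`, spanned by functions `c i`, which separates
the `d` points of `Y` below a general point of `W`, and suppose that `p (K_Y - 2 A)` has sections with
`dim Y` algebraically independent ratios (`K_Y - 2 A` is big), in the form below. Then

* `κ(W) = dim Y + κ(S)`, `ν(W) = dim Y + ν(S)` (also for the value `-∞`; `ν` is the numerical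
  dimension of the canonical divisor of a smooth model, defined by the growth of the sections of
  `m K + A` for all `A`);
* abundance in the form `κ = ν` (or `ν = -∞`) holds for `W` if and only if it holds for `S`.

For a variety with klt singularities and nef canonical divisor this form of abundance is equivalent to
semiampleness (Kawamata), and the transfer goes in both directions. In particular abundance is proved
for all `W` for which it is known for `S`, e.g. `dim S ≤ 3`, `S` of general type, abelian, ....

**Example.** Let `Y` be a smooth complete intersection of dimension `n ≥ 1` with `K_Y = O(m)`. Then the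
condition is that `d < (N + 1) (k + 2 - N)` for some `N`, `k` with `2 k < m`, `7 N + 4 ≤ k` (and two
mild conditions on the degrees and the dimension of the projective space). For `N = 0` this is
`d ≤ (m + 1) / 2`, and the bound is quadratic in `m` if the dimension is fixed.

The lower bounds come from the following theorem on arbitrary generically finite maps, for pairs.

**Theorem (numerical dimension of images).** Let `f : V ⇢ X` be a generically finite dominant rational
map, `(X, Δ)` a pair, given by the multiplicities `δ P` along all prime divisors `P` over `X`, and let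
the functions `a i` on `V`, which span the linear system `A`, separate the points of the general fibre.
If `ν(K_X + Δ) ≤ h` then for all divisors `B` on `V` the number of sections of
`w (K_V + f^* Δ - 2 A) + B` is at most `C w ^ h`. If `ν(K_X + Δ) = -∞` then `K_V + f^* Δ - 2 A` is not
pseudo-effective. So `ν(K_X + Δ) ≥ ν(K_V + f^* Δ - 2 A)`. (The corresponding statement for `κ` is
`MP_e23cd6_ag.ImagesOfBoundedDegree`; it does not give any information on `ν`.)

## Proof

*Images.* Let `a i` be a basis of `K` over `L`, and let `a i ^ (2 w) θ` be sections of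
`w (K_V + f^* Δ) + B` for all `θ` in a space `Θ` of dimension `R`. For fixed `θ₀ ≠ 0` in `Θ` and a fixed
function `β` the forms `disc (a) ^ w N(θ₀ + s β θ)`, `s` in `ℂ`, are sections of
`w d (K_X + Δ) + B'` (`MP_e23cd6_ag.ImagesOfBoundedDegree`). So is their coefficient at `s`, which is
`disc (a) ^ w N(θ₀) Tr (β θ / θ₀)` and depends linearly on `θ`. For `β = a 1, ..., a d` these linear maps
have no common kernel in `Θ`, so for one of them the image has dimension at least `R / d`.

*Lower bounds.* Apply this to `V = Y × S` and the forms `g ^ γ η ^ j ⊠ ω` where `η` is a `p`-canonical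
form on `Y`, `g ^ γ` runs through about `j ^ (dim Y)` monomials, and `ω` through the sections of
`p j K_S + A_S`. (The products `g ^ γ η ^ j ⊠ ω` are sections since the order of a product of forms
along a prime divisor over `Y × S` is at least the sum of the orders of the factors.)

*Upper bounds.* `κ` and `ν` do not increase under generically finite maps `V ⇢ W`. For the
product `V = Y × S` one has `ν(V) ≤ dim Y + ν(S)`, `κ(V) ≤ dim Y + κ(S)`: the function
fields `F`, `M` of `Y` and `S` are linearly disjoint, and (after multiplication with a fixed function) the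
sections of `m K_V + A` lie in the ring `F M`, by an argument with the prime divisors which
dominate both factors. The components in `M` of such a section with respect to a basis of `F` are
sections of `m K_S + A'`, since every prime divisor over `S` has a Gauss extension to a prime divisor
over `Y × S`.
-/

set_option autoImplicit false
set_option linter.overlappingInstances false

open FF Pool.Agent.W602.GT Pool.Agent.W619.TW Pool.Agent.N162.GP

namespace Pool.Agent.Results.MP_e23cd6_ag.ProductTransfer

/-- The prime divisor (divisorial place) `Q` lies over `P`, with ramification index `e`. -/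
def LiesOver {F K : Type} [Field F] [Field K] [Algebra ℂ F] [Algebra ℂ K] [Algebra F K]
    (Q : Place ℂ K) (P : Place ℂ F) (e : ℕ) : Prop :=
  0 < e ∧ ∀ u : F, Q.ord (algebraMap F K u) = e * P.ord u

/-- `κ(X) ≥ h` for the varieties `X` of dimension `n` with function field `L`: for some `m ≥ 1` there are
`h + 1` `m`-canonical forms, regular along all prime divisors over `X`, whose ratios are `h`
algebraically independent functions. -/
def KodairaGe (L : Type) [Field L] [Algebra ℂ L] (n h : ℕ) : Prop :=
  ∃ m : ℕ, 1 ≤ m ∧ ∃ Φ : Fin (h + 1) → (Fin n → Derivation ℂ L L) → L,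
    (∀ j, IsPluri m (Φ j) ∧ ∀ P : Place ℂ L, Divisorial n P → RegAt P (Φ j)) ∧
    ∃ D, Φ 0 D ≠ 0 ∧ AlgebraicIndependent ℂ fun j : Fin h => Φ j.succ D / Φ 0 D

/-- `ν (K_X + Δ) = -∞`: for every divisor `A` (generated by a finite set `S` of functions),
`μ (K_X + Δ) + A` has no nonzero section for large `μ`. -/
def NumNeg (L : Type) [Field L] [Algebra ℂ L] (n : ℕ) (δ : Place ℂ L → ℚ) : Prop :=
  ∀ S : Finset L, ∃ μ₀ : ℕ, ∀ μ, μ₀ ≤ μ → ¬ HasIndep ℂ L n 1 (IsPairSec ℂ L n δ S μ 1)

/-- Abundance for the canonical divisor `K_X` of the varieties `X` with function field `L`: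
`ν(X) = -∞`, or `κ(X) = ν(X)`. -/
def Abundant (L : Type) [Field L] [Algebra ℂ L] (n : ℕ) : Prop :=
  NumNeg L n (fun _ => 0) ∨ ∃ h, KodairaGe L n h ∧ PairNumLe ℂ L n (fun _ => 0) h

/-- `κ(W) = a + κ(S)`, `ν(W) = a + ν(S)`, and abundance holds for `W` if and only if it holds for `S`,
where `L` and `S` are the function fields of the varieties `W` of dimension `a + b` and `S` of dimension
`b`: `κ(W) ≥ a + h` if and only if `κ(S) ≥ h`, and `κ(W) = -∞` if and only if `κ(S) = -∞`;
`ν(W) ≤ a + h` if and only if `ν(S) ≤ h`, `ν(W) = -∞` if and only if `ν(S) = -∞`, and otherwise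
`ν(W) ≥ a`. -/
def Transfer (L S : Type) [Field L] [Algebra ℂ L] [Field S] [Algebra ℂ S] (a b : ℕ) : Prop :=
  (∀ h, KodairaGe L (a + b) (a + h) ↔ KodairaGe S b h) ∧
  (KodairaGe L (a + b) 0 ↔ KodairaGe S b 0) ∧
  (∀ h, PairNumLe ℂ L (a + b) (fun _ => 0) (a + h) ↔ PairNumLe ℂ S b (fun _ => 0) h) ∧
  (NumNeg L (a + b) (fun _ => 0) ↔ NumNeg S b (fun _ => 0)) ∧
  (¬ NumNeg L (a + b) (fun _ => 0) → ∀ h, PairNumLe ℂ L (a + b) (fun _ => 0) h → a ≤ h) ∧
  (Abundant L (a + b) ↔ Abundant S b)

/-- `θ` is a section of `w (K_V + f^* Δ - 2 A) + B`, where `f : V ⇢ X` is given by `L ⊆ K`, the linear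
system `A` is spanned by the functions `a i`, and `B` is generated by the finite set `S`: `θ` is a
`w`-canonical form, and along all prime divisors `Q` over `V`, with image `P` and ramification index
`e`, the values of the `a i ^ (2 w) θ` on regular vector fields are zero or have order at least
`Q(s) - w e δ P` for some nonzero `s` in `S`. -/
def TwistSec (L : Type) {K : Type} [Field L] [Field K] [Algebra ℂ L] [Algebra ℂ K] [Algebra L K]
    (n : ℕ) (δ : Place ℂ L → ℚ) {ι : Type} (a : ι → K) (S : Finset K) (w : ℕ)
    (θ : (Fin n → Derivation ℂ K K) → K) : Prop :=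
  IsPluri w θ ∧ ∀ (Q : Place ℂ K) (P : Place ℂ L) (e : ℕ), Divisorial n Q → LiesOver Q P e →
    ∀ (i : ι) (D : Fin n → Derivation ℂ K K), (∀ l, DerReg Q (D l)) →
      a i ^ (2 * w) * θ D = 0 ∨
        ∃ s ∈ S, s ≠ 0 ∧ (Q.ord s : ℚ) - w * e * δ P ≤ Q.ord (a i ^ (2 * w) * θ D)

/-- `K` is the function field of `Y × S`, where `E` and `S` are the function fields of the varieties
`Y` and `S` of dimensions `a ≥ 1` and `b`. -/
structure IsProduct {K : Type} [Field K] [Algebra ℂ K] (E S : IntermediateField ℂ K) (a b : ℕ) :
    Prop where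
  pos : 1 ≤ a
  sup : E ⊔ S = ⊤
  dimE : Algebra.trdeg ℂ E = a
  dimS : Algebra.trdeg ℂ S = b
  dimK : Algebra.trdeg ℂ K = (a + b : ℕ)

/-- `K_Y - 2 A` is big, where the linear system `A` on `Y` (of dimension `a`, with function field `E`)
is spanned by the functions `c i`: for some `p ≥ 1` there are a `p`-canonical form `η ≠ 0` on `Y` and
algebraically independent functions `g 1, ..., g a` such that the forms `c i ^ (2 p) u η`, for `u` in
`{1, g 1, ..., g a}`, are regular along all prime divisors over `Y`. -/
def BigTwist {E : Type} [Field E] [Algebra ℂ E] (a : ℕ) {ι : Type} (c : ι → E) : Prop :=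
  ∃ p : ℕ, 1 ≤ p ∧ ∃ η : (Fin a → Derivation ℂ E E) → E, IsPluri p η ∧ (∃ D, η D ≠ 0) ∧
    ∃ g : Fin a → E, AlgebraicIndependent ℂ g ∧ ∀ P : Place ℂ E, Divisorial a P →
      ∀ (i : ι) (u : E), (u = 1 ∨ ∃ j, u = g j) → RegAt P (fun D => c i ^ (2 * p) * (u * η D))

/-- The numerical dimension of images: let `f : V ⇢ X` be a generically finite dominant rational map
of projective varieties of dimension `n` with function fields `K ⊇ L`, `(X, Δ)` a pair with the
multiplicities `δ P`, and let the functions `a i` span `K` over `L`. If `ν(K_X + Δ) ≤ h` then for all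
finite sets `S` there is `C` such that there are at most `C w ^ h` linearly independent sections of
`w (K_V + f^* Δ - 2 A) + B`, for all `w ≥ 1`. If `ν(K_X + Δ) = -∞` there is none for large `w`. -/
def Images : Prop :=
  ∀ (L K : Type) [Field L] [Field K] [Algebra ℂ L] [Algebra ℂ K] [Algebra L K]
    [IsScalarTower ℂ L K] [FiniteDimensional L K] [Algebra.EssFiniteType ℂ K] (n : ℕ),
    Algebra.trdeg ℂ L = n → ∀ (δ : Place ℂ L → ℚ) (ι : Type) [Finite ι] (a : ι → K),
    Submodule.span L (Set.range a) = ⊤ →
    (∀ h, PairNumLe ℂ L n δ h → ∀ S : Finset K, ∃ C : ℕ, ∀ w N : ℕ, 1 ≤ w →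
      HasIndep ℂ K n N (TwistSec L n δ a S w) → N ≤ C * w ^ h) ∧
    (NumNeg L n δ → ∀ S : Finset K, ∃ w₀ : ℕ, ∀ w, w₀ ≤ w →
      ¬ HasIndep ℂ K n 1 (TwistSec L n δ a S w))

/-- Families of copies of `S`: let `K` be the function field of `Y × S`, `dim Y = a ≥ 1`, and let
`L ⊆ K`, a finite extension, be the function field of `W`, i.e. `Y × S ⇢ W` is generically finite. Let
the functions `c i` on `Y` span `K` over `L`, i.e. they separate the points of `Y` below a general point
of `W` and the general `{y} × S` is birational to its image, and let `K_Y - 2 A` be big (`BigTwist`).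
Then `κ(W) = a + κ(S)`, `ν(W) = a + ν(S)`, and abundance holds for `W` if and only if it holds for
`S`. -/
def Families : Prop :=
  ∀ (L K : Type) [Field L] [Field K] [Algebra ℂ L] [Algebra ℂ K] [Algebra L K]
    [IsScalarTower ℂ L K] [FiniteDimensional L K] [Algebra.EssFiniteType ℂ K]
    (E S : IntermediateField ℂ K) (a b : ℕ), IsProduct E S a b → ∀ (ι : Type) [Finite ι]
    (c : ι → E), Submodule.span L (Set.range fun i => (c i : K)) = ⊤ → BigTwist a c →
    Transfer L S a b

/-- Smooth complete intersections of dimension `n ≥ 1` of hypersurfaces of the degrees `d i ≤ D` in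
projective `(M + 1)`-space, `m = ∑ d i - M - 2`, are cut out by equations of degree at most `D` and have
the regular canonical forms `P(x) ω₀` for all forms `P` of degree `m`. -/
def CompleteIntersections : Prop :=
  ∀ (M n q m D : ℕ) (E : Type) [Field E] [Algebra ℂ E]
    (F : Fin q → MvPolynomial (Fin (M + 2)) ℂ) (d : Fin q → ℕ) (x : Fin (M + 2) → E),
    SmoothCI F d x → 1 ≤ n → Algebra.trdeg ℂ E = n → n + q = M + 1 → m + M + 2 = ∑ i, d i →
    (∀ i, d i ≤ D) → 1 ≤ D → LowDegree n m D x

/-- Families over complete intersections: let `Y` be a variety in projective `(M + 1)`-space which is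
cut out by equations of degree at most `D` and has the regular canonical forms `P(x) ω₀` for all forms
`P` of degree `m`, for example a smooth complete intersection. Let `Y × S ⇢ W` be generically finite
of degree less than `(N + 1) (k + 2 - N)`, and birational to its image on the general `{y} × S`
(`K = L(E)`), where `2 k < m`, `7 N + 4 ≤ k`, `(M + 1) N < k + M + 2`, `D + N ≤ k + 2`. Then
`κ(W) = n + κ(S)`, `ν(W) = n + ν(S)`, and abundance holds for `W` if and only if it holds for `S`. -/
def FamiliesOverCI : Prop :=
  ∀ (M n m D N k b : ℕ) (L K : Type) [Field L] [Field K] [Algebra ℂ L] [Algebra ℂ K]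
    [Algebra L K] [IsScalarTower ℂ L K] [FiniteDimensional L K] [Algebra.EssFiniteType ℂ K]
    (E S : IntermediateField ℂ K) (x : Fin (M + 2) → E), IsProduct E S n b →
    LowDegree n m D x → 1 ≤ M → 2 * k < m → 7 * N + 4 ≤ k → (M + 1) * N < k + M + 2 →
    D + N ≤ k + 2 → IntermediateField.adjoin L (E : Set K) = ⊤ →
    Module.finrank L K < (N + 1) * (k + 2 - N) → Transfer L S n b

/-- (1) The numerical dimension of the image of a generically finite map `f : V ⇢ X` is at least that
of `K_V + f^* Δ - 2 A`. (2) The transfer theorem for varieties covered by a family of copies of a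
variety `S`. (3) The example of families over complete intersections. -/
theorem result : Images ∧ Families ∧ CompleteIntersections ∧ FamiliesOverCI := by
  have key : ∀ (L K : Type) [Field L] [Field K] [Algebra ℂ L] [Algebra ℂ K] [Algebra L K]
      [IsScalarTower ℂ L K] [FiniteDimensional L K] [Algebra.EssFiniteType ℂ K]
      (E S : IntermediateField ℂ K) (a b p : ℕ) (ι : Type) [Finite ι]
      (η : (Fin a → Derivation ℂ E E) → E) (g : Fin a → E) (c : ι → E),
      Pool.Agent.L0h17.KU.Dat L E S a b p η g c → Transfer L S a b := by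
    intro L K _ _ _ _ _ _ _ _ E S a b p ι _ η g c d
    obtain ⟨h1, h2, h3, h4, h5⟩ := Pool.Agent.L0h17.KU.transfer d
    have e3 : ∀ (R : Type) [Field R] [Algebra ℂ R] (n h : ℕ), PairNumLe ℂ R n (fun _ => 0) h ↔
        Pool.Agent.W619.TW.NumLe ℂ R n (fun _ => False) h :=
      fun R _ _ n h => Pool.Agent.L0h17.KU.numLe_iff
    have e4 : ∀ (R : Type) [Field R] [Algebra ℂ R] (n : ℕ), NumNeg R n (fun _ => 0) ↔
        Pool.Agent.W619.TW.NumNeg ℂ R n (fun _ => False) :=
      fun R _ _ n => Pool.Agent.L0h17.KU.neg_iff
    have k1 : ∀ h, KodairaGe L (a + b) (a + h) ↔ KodairaGe S b h := h1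
    have k2 : KodairaGe L (a + b) 0 ↔ KodairaGe S b 0 := h2
    have k3 : NumNeg L (a + b) (fun _ => 0) ↔ NumNeg S b (fun _ => 0) := by rw [e4, e4, h3]
    have k4 : ∀ h, PairNumLe ℂ L (a + b) (fun _ => 0) (a + h) ↔
        PairNumLe ℂ S b (fun _ => 0) h := fun h => by rw [e3, e3, h4]
    have k5 : ¬ NumNeg L (a + b) (fun _ => 0) →
        ∀ h, PairNumLe ℂ L (a + b) (fun _ => 0) h → a ≤ h := fun hL h hh =>
      h5 (fun h' => hL ((e4 _ _).2 h')) h ((e3 _ _ _).1 hh)
    refine ⟨k1, k2, k4, k3, k5, ?_⟩
    constructor
    · rintro (h | ⟨h, hk, hn⟩)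
      · exact Or.inl (k3.1 h)
      · by_cases hneg : NumNeg L (a + b) (fun _ => 0)
        · exact Or.inl (k3.1 hneg)
        · have ha := k5 hneg h hn
          obtain ⟨r, rfl⟩ : ∃ r, h = a + r := ⟨h - a, by omega⟩
          exact Or.inr ⟨r, (k1 r).1 hk, (k4 r).1 hn⟩
    · rintro (h | ⟨h, hk, hn⟩)
      · exact Or.inl (k3.2 h)
      · exact Or.inr ⟨a + h, (k1 h).2 hk, (k4 h).2 hn⟩
  refine ⟨?_, ?_, ?_, ?_⟩
  · intro L K _ _ _ _ _ _ _ _ n hn δ ι _ a ha
    have hessL : Algebra.EssFiniteType ℂ L := Pool.Agent.TH466.QG.ess_below (K := K)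
    exact ⟨fun h hh S => Pool.Agent.L0h17.KU.part1 hn δ ha hh S,
      fun hh S => Pool.Agent.L0h17.KU.part1_neg hn δ ha hh S⟩
  · intro L K _ _ _ _ _ _ _ _ E S a b hprod ι _ c hc hbig
    obtain ⟨p, hp1, η, hη, hη0, g, hg, hreg⟩ := hbig
    refine key L K E S a b p ι η g c ⟨hprod.dimE, hprod.dimS, hprod.dimK,
      by rw [sup_comm]; exact hprod.sup, hprod.pos, hp1, hη, hη0, hg, hc,
      fun i P hP D hD => ⟨?_, fun j => hreg P hP i _ (Or.inr ⟨j, rfl⟩) D hD⟩⟩
    have h1 := hreg P hP i 1 (Or.inl rfl) D hD
    simp only [one_mul] at h1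
    exact h1
  · intro M n q m D E _ _ F d x h hn hE hq hm hD hD1
    exact lowDegree_of_smoothCI fCIC fCIA h hn hE hq hm hD hD1
  · intro M n m D N k b L K _ _ _ _ _ _ _ _ E S x hprod hx hM hkm hk hN hD hE hd
    obtain ⟨η, g, dat⟩ := Pool.Agent.L0h17.KU.ci_dat hx hprod.pos hM hk hN hD (by omega) hd hE
      (by rw [sup_comm]; exact hprod.sup) hprod.dimS hprod.dimK
    exact key L K E S n b 1 _ η g _ dat

end Pool.Agent.Results.MP_e23cd6_ag.ProductTransfer
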