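import Pool.Agent.L0h18.ST.Main
import Pool.Agent.L0h18.EF.Prod

/-!
# Structure of the varieties dominated by the product of several varieties and a curve; abundance for
all klt pairs on these varieties

Let `V = X 0 × ... × X (k - 1) × C`, where the `X i` are smooth projective varieties over `ℂ` of
dimensions `m i` and `C` is a smooth projective curve of any genus, and let `V ⇢ W` be a dominant
rational map of finite degree to a variety `W`. It need not be related to the product structure, and
it need not be the quotient by a group. Let `W_i` be the image of `V` in
`W × X 0 × ... × X (i - 1)` and `d i` the degree over `W_i` of the image of `V` in `W_i × X i`; for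
example `d 0` is the number of different points of `X 0` below a general fibre of `V ⇢ W`. The
degree of `V ⇢ W` may be as large as the product of the `d i`, times any number. Suppose that the
canonical forms of `X i` separate `2 d i` general points for all `i`, for example that `X i` is a
smooth complete intersection of large degree (with a quadratic bound for `d i`, see the first part of
the theorem), or a curve of gonality greater than `2 d i`.

**Theorem.** One has
* either `κ(W) ≥ dim W - 1`,
* or there is a dominant rational map `W ⇢ Z` with connected fibres to a variety `Z` of general type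
  of dimension `dim W - 1` whose general fibre is a rational curve; in this case `W` is uniruled and
  `K_W` is not pseudo-effective.

So the abundance conjecture for klt pairs holds for all klt pairs `(X, Δ)` with `X` birational to
`W`, and any boundary `Δ`, by known theorems. Let `K_X + Δ` be nef. If `κ(W) ≥ dim W - 1` then
`κ(K_X + Δ) ≥ κ(W) ≥ dim X - 1`, since `Δ ≥ 0`. If there is a fibration `X ⇢ Z` in rational curves over
a variety of general type then `κ(K_X + Δ) ≥ dim Z = dim X - 1` too, by the subadditivity of the
logarithmic Kodaira dimension over a base of general type (Campana, Fujino, Kovács and Patakfalvi), as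
`K_X + Δ` has nonnegative degree on the general fibre. And for `κ(K_X + Δ) ≥ dim X - 3` abundance is
known: the general fibre of the Iitaka fibration has dimension at most three (Lai, Gongyo and
Lehmann). The main point is that `Z` is of general type: the fact that a variety is uniruled says
nothing on the abundance of the pairs on it, which is open for the uniruled varieties of dimension at
least four.

The case of one factor `X 0` is the starting result `CompleteIntersectionTimesCurve`. Here the
conditions are on the degrees `d i` one after the other, and the condition for the product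
`X 0 × ... × X (k - 1)` as one variety would be much stronger: the canonical forms of the product do
not separate more points than the ones of the factors, and the number of the points of the product
below a general fibre of `V ⇢ W` is the product of the `d i`.

## Proof

The trace on `W` of the product of the pullbacks of canonical forms of the `X i` and of a differential
on `C` is a canonical form on `W`. Suppose that two generic points of `W` have the same image under
the map given by these forms. Separating the points of the first, the second, ... factor one gets
either a point of the second fibre with the same coordinates in all `X i`, so that the image of the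
canonical map has dimension at least `∑ m i`; or a trace relation for the differentials of `C`, which
says that the curves in `W` given by the curves `{x} × C` are rational (the theory of helper145,
`Pool/Agent/N145/SX`). In the second case (`Pool/Agent/L0h18/ST`) one shows by induction on `i` that
the multivalued maps from these rational curves to `X i` are constant: as the coordinates in the
`X l`, `l < i`, are constant along the curve, the coordinate in `X i` takes at most `d i` values over
each point of it, and the pull-back of the canonical forms of `X i`, which separate `2 d i` points,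
would give a nonzero differential on the rational curve. So the rational curves are the fibres of a
fibration `W ⇢ Z`, and `Z` is the image of the product of the `X i`, with the same successive degrees
(by linear disjointness; but this product is not mapped to `Z` with small degree). The traces of the
products of the canonical forms show in the same way that `Z` is of general type.

`K` and `L` are the function fields of `V` and `W`. `SeparatesPoints` is in
`Pool/Agent/L0h18/EF/Prod.lean`, `deg` (the number `d i`) in `Pool/Agent/N162/GQ/Deg.lean`.
-/

set_option autoImplicit false
set_option linter.overlappingInstances false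
set_option maxHeartbeats 4000000
set_option synthInstance.maxHeartbeats 400000

open FF Module Pool.Agent Pool.Agent.W602.GT Pool.Agent.N162.BC Pool.Agent.N162.GP
open Pool.Agent.L0h18.EF (SeparatesPoints)
open Pool.Agent.N162.GQ (deg)

namespace Pool.Agent.Results.MP_e23cd6_ag.ProductsTimesCurve

/-- `κ(W) ≥ h` for the projective variety `W` of dimension `n` with the function field `L`: for some
`N > 0` there are `h + 1` `N`-canonical forms, regular at all prime divisors over `W`, whose ratios are
`h` algebraically independent functions. -/
def KodairaGe (L : Type) [Field L] [Algebra ℂ L] (n h : ℕ) : Prop :=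
  ∃ N : ℕ, 0 < N ∧ ∃ ω : Fin (h + 1) → (Fin n → Derivation ℂ L L) → L,
    (∀ j, IsPluri N (ω j) ∧ ∀ P : Place ℂ L, Divisorial n P → RegAt P (ω j)) ∧
    ∃ D, ω 0 D ≠ 0 ∧ AlgebraicIndependent ℂ (fun i : Fin h => ω i.succ D / ω 0 D)

/-- `W` has a fibration in rational curves over a variety `Z` of general type: the function field
of `Z` is algebraically closed in `L`, of transcendence degree `h = dim W - 1`, its Kodaira
dimension is `h`, and the generic fibre of `W ⇢ Z` is dominated by a projective line over a finite
extension of `Z`. -/
def RuledOverGeneralType (L : Type) [Field L] [Algebra ℂ L] (h : ℕ) : Prop :=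
  ∃ Z : IntermediateField ℂ L, (∀ z : L, IsAlgebraic Z z → z ∈ Z) ∧ Algebra.trdeg ℂ Z = h ∧
    KodairaGe Z h h ∧ ∃ (M : Type) (_ : Field M) (_ : Algebra Z M), Algebra.IsAlgebraic Z M ∧
      Nonempty (L →ₐ[Z] RatFunc M)

theorem kodairaGe_of {L : Type} [Field L] [Algebra ℂ L] {n h : ℕ}
    (hk : KodGe ℂ L n (fun _ => False) h) : KodairaGe L n h := by
  obtain ⟨N, hN, ω, h1, h2⟩ := hk
  exact ⟨N, hN, ω, fun j => ⟨(h1 j).1, fun P hP => (h1 j).2.2 P hP id⟩, h2⟩

/-- **Structure of the varieties dominated by `X 0 × ... × X (k - 1) × C`.** (1) Let `E` be the
function field of a smooth complete intersection `X` of dimension `n ≥ 1` of hypersurfaces of the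
degrees `d i ≤ D` in projective `(M + 1)`-space, `K_X = O(m)`. If `m ≥ 7 N + 4`,
`(M + 1) N < m + M + 2`, `D + N ≤ m + 2` and `r < (N + 1) (m + 2 - N)` then the canonical forms
separate `r` general points. (2) They separate `r` general points on a curve of gonality greater than
`r`. (3) Let `K` be the function field of the product `V` of the varieties with the function fields
`F i`, `i < k`, of dimension `m i`, and of the curve with the function field `F k`, i.e. `K` is the
compositum and its transcendence degree is `∑ m i + 1`. Let `L ⊆ K` be the function field of a
variety `W` such that the extension is finite. Suppose that for all `i < k` the canonical forms of the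
`i`-th variety separate `2 d i` general points, where `d i` is the degree over `W_i` of the image of
`V` in the product of `W_i` and this variety. Then either `κ(W) ≥ dim W - 1`, or `W` has a fibration
in rational curves over a variety of general type of dimension `dim W - 1`. In the second case `K_W`
is not pseudo-effective. -/
theorem result :
    (∀ (M n q m D N r : ℕ) (E : Type) [Field E] [Algebra ℂ E]
      (F : Fin q → MvPolynomial (Fin (M + 2)) ℂ) (d : Fin q → ℕ) (x : Fin (M + 2) → E),
      SmoothCI F d x → 1 ≤ n → Algebra.trdeg ℂ E = n → n + q = M + 1 → m + M + 2 = ∑ i, d i →
      (∀ i, d i ≤ D) → 1 ≤ D → 1 ≤ M → 7 * N + 4 ≤ m → (M + 1) * N < m + M + 2 →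
      D + N ≤ m + 2 → r < (N + 1) * (m + 2 - N) → SeparatesPoints E n r) ∧
    (∀ (E : Type) [Field E] [Algebra ℂ E] [IsFF ℂ E] (r : ℕ),
      (∀ y : E, Transcendental ℂ y → r < finrank (IntermediateField.adjoin ℂ {y}) E) →
      SeparatesPoints E 1 r) ∧
    ∀ (k : ℕ) (m : Fin k → ℕ) (K : Type) [Field K] [Algebra ℂ K] [Algebra.EssFiniteType ℂ K]
      (F : Fin (k + 1) → IntermediateField ℂ K) [∀ i, Algebra.EssFiniteType ℂ (F i)]
      [IsFF ℂ (F (Fin.last k))], (⨆ i, F i) = ⊤ →
      (∀ i : Fin k, Algebra.trdeg ℂ (F i.castSucc) = m i) →
      Algebra.trdeg ℂ K = (∑ i, m i + 1 : ℕ) →
      ∀ (L : Type) [Field L] [Algebra ℂ L] [Algebra L K] [IsScalarTower ℂ L K]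
        [FiniteDimensional L K],
        (∀ i : Fin k, SeparatesPoints (F i.castSucc) (m i) (2 * deg F L i.castSucc)) →
        KodairaGe L (∑ i, m i + 1) (∑ i, m i) ∨
          RuledOverGeneralType L (∑ i, m i) ∧ ¬ Psef ℂ L (∑ i, m i + 1) (fun _ => False) := by
  refine ⟨?_, ?_, ?_⟩
  · intro M n q m D N r E _ _ F d x h hn hE hq hm hD hD1 hM h1 h2 h3 h4
    exact Pool.Agent.L0h18.EF.separates_of_factor (g := (N + 1) * (m + 2 - N))
      (Or.inl ⟨M, m, D, N, x, lowDegree_of_smoothCI fCIC fCIA h hn hE hq hm hD hD1, hM, h1, h2, h3,
        le_rfl⟩) h4
  · intro E _ _ _ r h
    exact Pool.Agent.L0h18.EF.separates_of_factor (g := r + 1)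
      (Or.inr ⟨rfl, inferInstance, fun y hy => h y hy⟩) (Nat.lt_succ_self r)
  · intro k m K _ _ _ F _ _ hF hm hK L _ _ _ _ _ hX
    choose x D hx hD using fun i : Fin k => Pool.Agent.Y172.exists_crd (hm i)
    have hsep : ∀ i, N145.SX.SepX (x i) (fun _ => False) (2 * deg F L i.castSucc + 1) := fun i =>
      N145.SX.sepX_of' (hx i) (hD i) fun Ω _ _ _ A hA c hc =>
        hX i (D i) (N145.SX.dual_indep (hD i)) Ω A hA c hc
    have hd : ∀ i : Fin k, 2 * finrank (N145.PC.MF F L (N145.PC.Js (k + 1) i))
        (IntermediateField.adjoin (N145.PC.MF F L (N145.PC.Js (k + 1) i))
          (F i.castSucc : Set K)) < 2 * deg F L i.castSucc + 1 := fun i => by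
      rw [Pool.Agent.N162.GQ.deg_eq]
      exact Nat.lt_succ_self _
    by_cases hk : KodGe ℂ L (∑ i, m i + 1) (fun _ => False) (∑ i, m i)
    · exact Or.inl (kodairaGe_of hk)
    · refine Or.inr ⟨?_, fun hp => hk ?_⟩
      · obtain ⟨Z, h1, h2, h3, h4⟩ :=
          (Pool.Agent.L0h18.ST.structure_multi hF hm hK hx hsep hd).resolve_left hk
        exact ⟨Z, h1, h2, kodairaGe_of h3, h4⟩
      · exact ((N145.SX.multi_all (L := L) hF hm hK hx hsep hd).1.out 0 1).1 hp

end Pool.Agent.Results.MP_e23cd6_ag.ProductsTimesCurve
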